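import Mathlib
import Pool.Agent.H15.WM.Sph

/-!
# Periodic orbits of functions of a nonabelian momentum map on levels of contact type

`(M, ω)` is an arbitrary symplectic manifold (the form need not be exact), on which a compact Lie group
`K` acts with momentum functions `J ζ`, `ζ` in the Lie algebra. `L` is a compact connected regular level
set of a Hamiltonian `H` (or a component of one), near which the form is exact: this is so if `L` is of
contact type. As in `MomentumHamiltonians`, `H` need not be invariant under `K`; the symmetry supposed is
only

  `x ∈ L` and `J (k x) = J x` imply `k x ∈ L`,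

true for `H = F (h, J)` with arbitrary `F` and `K`-invariant `h`.

`K` is supposed to act unitarily on a vector space `V`, transitively on the unit vectors: it is one of
`U(n)`, `SU(n)`, `Sp(n)`, and `e` is the circle in `K` which rotates a complex (for `Sp(n)`: quaternionic)
line `ℂ v₀`. Its momentum is `⟨A(x) v₀, v₀⟩`, where `A` is the momentum map of `K` with values in the
self-adjoint operators, suitably normalized. `SO(3)` acts through `SU(2)`.

Theorem. `L` carries a periodic orbit, which is an orbit of a conjugate of the circle, if one of the
following holds:

* `A x` is a scalar for some `x ∈ L` (for instance the momentum `J x` is zero), and some point of `K L`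
  is moved by the circle;
* `dim V = 2` (that is, `K` is `U(2)` or `SU(2)`), or the largest eigenvalue of `A x` is simple for all
  `x ∈ L`; and some `x ∈ L` is moved by a conjugate `k⁻¹ e k` of the circle with maximal momentum at `x`.

Idea of the proof. For `x ∈ L` and maximal `J η (k x)` the orbit of `x` under `k⁻¹ e k` lies in `L`. By
Stokes' theorem, the integral of the primitive over this orbit, minus `J η (k x)`, is locally constant in
`(k, x)`. The vectors `ρ(k)⁻¹ v₀` at which the momentum is maximal, for given `x`, form the unit sphere of
an eigenspace, which is connected, so that this function is constant on the set of the pairs `(k, x)`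
with maximal momentum, and on the set of the pairs with minimal momentum. If a global maximum or minimum
is moved, its orbit is a periodic orbit. If not, the integral vanishes there, so that the constant is
minus the maximum of `J η (k x)`, resp. minus the minimum. If `A x` is somewhere scalar, the two sets meet
and the two constants agree: `J η (k x)` is constant, and all pairs are maxima. In the second case the
minimum over `L` of the maximum over `K` is moved, and one shows by a nonsmooth form of Lagrange
multipliers that its orbit is a periodic orbit.
-/

open scoped Topology ContDiff Manifold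
open Pool.Agent.X167.W Pool.Agent.H15.WM

noncomputable section

namespace Pool.Agent.H15.Spare.ExactLevels

universe u

theorem result (S : Sys.{u}) (hS : IsAlmostSymplectic S)
    -- a compact Lie group `K` (Lie algebra `F`) acting with momentum functions `J ζ`
    {F : Type*} [NormedAddCommGroup F] [NormedSpace ℝ F] [FiniteDimensional ℝ F]
    {K : Type*} [TopologicalSpace K] [ChartedSpace F K] [Group K] [LieGroup 𝓘(ℝ, F) ∞ K]
    [CompactSpace K] [MulAction K S.M] (J : F → S.M → ℝ) (hK : HamAction S K J)
    -- `K` is `U(n)`, `SU(n)` or `Sp(n)`, acting on `V`, and `e` the circle with momentum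
    -- `J η = ⟨A v₀, v₀⟩`
    {V : Type*} [NormedAddCommGroup V] [InnerProductSpace ℂ V] [FiniteDimensional ℂ V]
    (ρ : K →* (V ≃ₗᵢ[ℂ] V)) (v₀ : V) (A : S.M → V →L[ℂ] V) (e : ℝ → K) (η : F)
    (he : IsCircle S e η) (hρ : SphereMomentum ρ v₀ A e (J η))
    -- a compact connected regular level set `L` of the Hamiltonian `H`, or a component of one,
    -- near which the form is exact
    (H : S.M → ℝ) (hH : S.Smooth H) (c₀ : ℝ) (L : Set S.M) (hL : RegularPart S H c₀ L)
    (hconn : IsPreconnected L) (hex : ExactNear S L)
    -- it contains, with `x`, the points `k x` with the same momentum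
    (hinv : MomentumInvariant K J L)
    (hJ : (ScalarSomewhere A L ∧ Moves S K (J η) L) ∨
      ((Module.finrank ℂ V = 2 ∨ ∀ x ∈ L, SimpleTop (A x)) ∧ TopMoves S K (J η) L)) :
    HasConjugateOrbit S H L e := by
  obtain ⟨θ, hθ, hprim⟩ := hex
  refine sphere_case hK hS.alt hS.nondeg he hρ hH hL hconn hinv hθ hprim ?_
  have h0 : ∀ {k : K} {x : S.M}, MovedAt S (J η) k x → S.d (J η) (k • x) ≠ 0 := by
    rintro k x ⟨v, hv⟩ h
    exact hv (DFunLike.congr_fun h v)
  rcases hJ with ⟨h1, x, hx, k, hm⟩ | ⟨h1, x, hx, k, hk, hm⟩
  · exact Or.inl ⟨h1, x, hx, k, h0 hm⟩
  · exact Or.inr ⟨h1, x, hx, k, hk, h0 hm⟩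

end Pool.Agent.H15.Spare.ExactLevels
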